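import Mathlib

/-!
A real power series whose coefficients have eventually periodic signs is controlled on
circles by its values at finitely many directions (roots of unity).
-/

open scoped Topology BigOperators
open Filter Finset

namespace Pool.Agent.Q36.PartExp

lemma sum_pow_root {p : ℕ} {ζ : ℂ} (hζ : IsPrimitiveRoot ζ p) (m : ℕ) :
    ∑ j ∈ range p, (ζ ^ m) ^ j = if p ∣ m then (p : ℂ) else 0 := by
  split_ifs with h
  · rw [(hζ.pow_eq_one_iff_dvd m).2 h]; simp
  · have h1 : ζ ^ m ≠ 1 := fun h1 => h ((hζ.pow_eq_one_iff_dvd m).1 h1)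
    rw [geom_sum_eq h1, ← pow_mul, mul_comm m p, pow_mul, hζ.pow_eq_one, one_pow, sub_self,
      zero_div]

lemma dvd_iff_eq_mod {p r n : ℕ} (hr : r < p) : p ∣ (p - r + n) ↔ r = n % p := by
  constructor
  · intro h
    have h1 : p ∣ (p - r + n % p) := by
      have h2 : p - r + n = p - r + n % p + p * (n / p) := by
        have := Nat.mod_add_div n p; omega
      rw [h2] at h
      exact (Nat.dvd_add_iff_left (Dvd.intro _ rfl)).2 h
    have h3 : n % p < p := Nat.mod_lt _ (by omega)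
    obtain ⟨q, hq⟩ := h1
    have hq1 : q = 1 := by
      have h4 : p * q < p * 2 := by omega
      have h5 : q < 2 := Nat.lt_of_mul_lt_mul_left h4
      have h6 : q ≠ 0 := by rintro rfl; omega
      omega
    subst hq1; omega
  · intro h
    have h1 := Nat.mod_add_div n p
    refine ⟨1 + n / p, ?_⟩
    rw [mul_add, mul_one]
    omega

/-- finite Fourier expansion of a periodic sequence -/
lemma fourier_periodic {p : ℕ} (hp : 0 < p) {ζ : ℂ} (hζ : IsPrimitiveRoot ζ p) (e : ℕ → ℝ)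
    (he : Function.Periodic e p) (hb : ∀ n, |e n| ≤ 1) :
    ∃ c : ℕ → ℂ, (∀ j, ‖c j‖ ≤ 1) ∧ ∀ n, (e n : ℂ) = ∑ j ∈ range p, c j * (ζ ^ j) ^ n := by
  have hp0 : (p : ℂ) ≠ 0 := by exact_mod_cast hp.ne'
  refine ⟨fun j => (1 / p) * ∑ r ∈ range p, (e r : ℂ) * ζ ^ (j * (p - r)), fun j => ?_,
    fun n => ?_⟩
  · have hz : ‖ζ‖ = 1 := hζ.norm'_eq_one hp.ne'
    rw [norm_mul, norm_div, norm_one, Complex.norm_natCast]
    have : ‖∑ r ∈ range p, (e r : ℂ) * ζ ^ (j * (p - r))‖ ≤ ∑ _r ∈ range p, (1 : ℝ) := by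
      refine norm_sum_le_of_le _ fun r _ => ?_
      rw [norm_mul, norm_pow, hz, one_pow, mul_one, Complex.norm_real]
      exact hb r
    rw [Finset.sum_const, card_range, nsmul_eq_mul, mul_one] at this
    calc 1 / (p : ℝ) * _ ≤ 1 / (p : ℝ) * p := by gcongr
      _ = 1 := by field_simp
  · have h1 : ∀ j ∈ range p, (1 / (p : ℂ)) * (∑ r ∈ range p, (e r : ℂ) * ζ ^ (j * (p - r))) *
        (ζ ^ j) ^ n = (1 / (p : ℂ)) * ∑ r ∈ range p, (e r : ℂ) * (ζ ^ (p - r + n)) ^ j := by
      intro j _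
      rw [mul_assoc, Finset.sum_mul]
      congr 1
      refine Finset.sum_congr rfl fun r _ => ?_
      rw [mul_assoc, ← pow_mul, ← pow_add, ← pow_mul]
      congr 2
      ring
    rw [Finset.sum_congr rfl h1, ← Finset.mul_sum, Finset.sum_comm]
    have h2 : ∀ r ∈ range p, ∑ j ∈ range p, (e r : ℂ) * (ζ ^ (p - r + n)) ^ j =
        if r = n % p then (e r : ℂ) * p else 0 := by
      intro r hr
      rw [mem_range] at hr
      rw [← Finset.mul_sum, sum_pow_root hζ]
      by_cases h : r = n % p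
      · rw [if_pos h, if_pos ((dvd_iff_eq_mod hr).2 h)]
      · rw [if_neg h, if_neg (fun h' => h ((dvd_iff_eq_mod hr).1 h')), mul_zero]
    rw [Finset.sum_congr rfl h2, Finset.sum_ite_eq', if_pos (mem_range.2 (Nat.mod_lt _ hp)),
      he.map_mod_nat]
    field_simp

theorem sign_bound (a ε : ℕ → ℝ) (p N : ℕ) (hp : 0 < p) (hε : ∀ n, |ε n| ≤ 1)
    (hper : ∀ n ≥ N, ε (n + p) = ε n) (habs : ∀ n ≥ N, ε n * a n = |a n|)
    (hsum : ∀ r : ℝ, 0 ≤ r → r < 1 → Summable (fun n => |a n| * r ^ n))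
    {ζ : ℂ} (hζ : IsPrimitiveRoot ζ p) :
    ∃ C : ℝ, 0 ≤ C ∧ ∀ x : ℂ, ‖x‖ < 1 → ‖∑' n, (a n : ℂ) * x ^ n‖ ≤
      ∑ j ∈ range p, ‖∑' n, (a n : ℂ) * (ζ ^ j * (‖x‖ : ℂ)) ^ n‖ + C := by
  set e : ℕ → ℝ := fun n => ε (n + p * N) with he
  have hpN : N ≤ p * N := Nat.le_mul_of_pos_left N hp
  have heper : Function.Periodic e p := by
    intro n
    simp only [he]
    rw [show n + p + p * N = (n + p * N) + p by ring]
    exact hper _ (by omega)
  have heb : ∀ n, |e n| ≤ 1 := fun n => hε _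
  have hee : ∀ n ≥ N, e n = ε n := by
    have h1 : ∀ m n, N ≤ n → ε (n + p * m) = ε n := by
      intro m
      induction m with
      | zero => intro n _; simp
      | succ m ih =>
        intro n hn
        rw [show n + p * (m + 1) = (n + p * m) + p by ring, hper _ (by omega), ih n hn]
    intro n hn
    exact h1 N n hn
  obtain ⟨c, hc1, hc2⟩ := fourier_periodic hp hζ e heper heb
  refine ⟨∑ n ∈ range N, 2 * |a n|, Finset.sum_nonneg fun n _ => by positivity,
    fun x hx => ?_⟩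
  set r := ‖x‖ with hr
  have hr0 : 0 ≤ r := norm_nonneg x
  have hS := hsum r hr0 hx
  have hz : ‖ζ‖ = 1 := hζ.norm'_eq_one hp.ne'
  -- absolute summability of the twisted series
  have hSj : ∀ j : ℕ, Summable (fun n => (a n : ℂ) * (ζ ^ j * (r : ℂ)) ^ n) := by
    intro j
    refine Summable.of_norm_bounded hS fun n => ?_
    rw [norm_mul, norm_pow, norm_mul, norm_pow, hz, one_pow, one_mul, Complex.norm_real,
      Complex.norm_real, Real.norm_of_nonneg hr0]
    exact le_of_eq (by rw [Real.norm_eq_abs])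
  have hSe : Summable (fun n => e n * a n * r ^ n) := by
    refine Summable.of_norm_bounded hS fun n => ?_
    rw [norm_mul, norm_mul, Real.norm_eq_abs, Real.norm_eq_abs, Real.norm_eq_abs, abs_pow,
      abs_of_nonneg hr0]
    have := heb n
    calc |e n| * |a n| * r ^ n ≤ 1 * |a n| * r ^ n := by gcongr
      _ = |a n| * r ^ n := by ring
  have hfin : Summable (fun n => if n < N then 2 * |a n| * r ^ n else 0) := by
    refine summable_of_ne_finset_zero (s := range N) fun n hn => ?_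
    rw [mem_range] at hn
    exact if_neg hn
  have h1 : ‖∑' n, (a n : ℂ) * x ^ n‖ ≤ ∑' n, |a n| * r ^ n := by
    have e1 : (fun n => ‖(a n : ℂ) * x ^ n‖) = fun n => |a n| * r ^ n := by
      funext n
      rw [norm_mul, norm_pow, Complex.norm_real, Real.norm_eq_abs]
    rw [← e1]
    exact norm_tsum_le_tsum_norm (by rw [e1]; exact hS)
  have h2 : ∑' n, |a n| * r ^ n ≤ ∑' n, e n * a n * r ^ n +
      ∑' n, (if n < N then 2 * |a n| * r ^ n else 0) := by
    rw [← hSe.tsum_add hfin]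
    refine hS.tsum_le_tsum (fun n => ?_) (hSe.add hfin)
    split_ifs with hn
    · have h3 := abs_le.1 (heb n)
      have h4 : -|a n| ≤ e n * a n := by
        have : |e n * a n| ≤ |a n| := by
          rw [abs_mul]
          calc |e n| * |a n| ≤ 1 * |a n| := by gcongr; exact heb n
            _ = |a n| := one_mul _
        exact (abs_le.1 this).1
      have h5 : 0 ≤ r ^ n := pow_nonneg hr0 n
      nlinarith
    · rw [hee n (by omega), habs n (by omega), add_zero]
  have h3 : ∑' n, (if n < N then 2 * |a n| * r ^ n else 0) ≤ ∑ n ∈ range N, 2 * |a n| := by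
    rw [tsum_eq_sum (s := range N)]
    · refine Finset.sum_le_sum fun n hn => ?_
      rw [mem_range] at hn
      rw [if_pos hn]
      have : r ^ n ≤ 1 := pow_le_one₀ hr0 hx.le
      have h5 : 0 ≤ 2 * |a n| := by positivity
      nlinarith
    · intro n hn
      rw [mem_range] at hn
      exact if_neg hn
  have h4 : ((∑' n, e n * a n * r ^ n : ℝ) : ℂ) =
      ∑ j ∈ range p, c j * ∑' n, (a n : ℂ) * (ζ ^ j * (r : ℂ)) ^ n := by
    rw [Complex.ofReal_tsum]
    have h5 : ∀ n, ((e n * a n * r ^ n : ℝ) : ℂ) =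
        ∑ j ∈ range p, c j * ((a n : ℂ) * (ζ ^ j * (r : ℂ)) ^ n) := by
      intro n
      push_cast
      rw [hc2 n, Finset.sum_mul, Finset.sum_mul]
      refine Finset.sum_congr rfl fun j _ => ?_
      rw [mul_pow]; ring
    rw [tsum_congr h5, Summable.tsum_finsetSum (fun j _ => (hSj j).mul_left _)]
    refine Finset.sum_congr rfl fun j _ => ?_
    rw [tsum_mul_left]
  have h5 : ∑' n, e n * a n * r ^ n ≤
      ∑ j ∈ range p, ‖∑' n, (a n : ℂ) * (ζ ^ j * (r : ℂ)) ^ n‖ := by
    calc ∑' n, e n * a n * r ^ n ≤ ‖∑' n, e n * a n * r ^ n‖ := Real.le_norm_self _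
      _ = ‖((∑' n, e n * a n * r ^ n : ℝ) : ℂ)‖ := by rw [Complex.norm_real]
      _ ≤ _ := by
        rw [h4]
        refine norm_sum_le_of_le _ fun j _ => ?_
        rw [norm_mul]
        calc ‖c j‖ * _ ≤ 1 * ‖∑' n, (a n : ℂ) * (ζ ^ j * (r : ℂ)) ^ n‖ := by
              gcongr; exact hc1 j
          _ = _ := one_mul _
  linarith

end Pool.Agent.Q36.PartExp
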