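import Pool.Agent.Q36.PartExp.Expo
import Pool.Agent.Q36.PartExp.Sign

/-!
Asymptotics of the exponent near points of the unit circle when the parts form an
arithmetic progression.
-/

open scoped Topology BigOperators
open Filter Finset

namespace Pool.Agent.Q36.PartExp

/-- the set of positive integers satisfying `A` is `{a m + b : m ≥ 0}` -/
structure IsAP (A : ℕ → Prop) (a b : ℕ) : Prop where
  apos : 1 ≤ a
  bpos : 1 ≤ b
  spec : ∀ n, 1 ≤ n → (A n ↔ ∃ m, n = a * m + b)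

variable {A : ℕ → Prop} [DecidablePred A] {a b : ℕ}

lemma inner_sum (h : IsAP A a b) {y : ℂ} (hy : ‖y‖ < 1) :
    ∑' i : ℕ, (if A (i + 1) then y ^ (i + 1) else 0) = y ^ b / (1 - y ^ a) := by
  have ha := h.apos
  have hb := h.bpos
  have hinj : Function.Injective (fun m : ℕ => a * m + b - 1) := by
    intro i j hij
    simp only at hij
    have h1 : a * i = a * j := by omega
    exact Nat.eq_of_mul_eq_mul_left (by omega) h1
  have h2 : HasSum (fun m : ℕ => y ^ b * (y ^ a) ^ m) (y ^ b / (1 - y ^ a)) := by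
    have hya : ‖y ^ a‖ < 1 := by
      rw [norm_pow]
      exact pow_lt_one₀ (norm_nonneg _) hy (by omega)
    have hg : HasSum (fun m : ℕ => (y ^ a) ^ m) (1 - y ^ a)⁻¹ :=
      hasSum_geometric_of_norm_lt_one hya
    have hg2 := hg.mul_left (y ^ b)
    rw [div_eq_mul_inv]
    exact hg2
  refine HasSum.tsum_eq ?_
  rw [← hinj.hasSum_iff]
  · have e1 : ((fun i : ℕ => if A (i + 1) then y ^ (i + 1) else 0) ∘
        fun m : ℕ => a * m + b - 1) = fun m : ℕ => y ^ b * (y ^ a) ^ m := by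
      funext m
      simp only [Function.comp]
      rw [show a * m + b - 1 + 1 = a * m + b by omega,
        if_pos ((h.spec _ (by omega)).2 ⟨m, rfl⟩), pow_add, pow_mul, mul_comm]
    rw [e1]; exact h2
  · intro i hi
    rw [if_neg]
    intro hA
    obtain ⟨m, hm⟩ := (h.spec _ (by omega)).1 hA
    exact hi ⟨m, by simp only; omega⟩

/-- the point `ζ e^{-s(1+iκ)}` -/
noncomputable def pt (ζ : ℂ) (κ s : ℝ) : ℂ := ζ * Complex.exp (-(s * (1 + κ * Complex.I)))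

lemma norm_pt {ζ : ℂ} (hζ : ‖ζ‖ = 1) (κ s : ℝ) : ‖pt ζ κ s‖ = Real.exp (-s) := by
  rw [pt, norm_mul, hζ, one_mul, Complex.norm_exp]
  congr 1
  simp

lemma norm_pt_lt {ζ : ℂ} (hζ : ‖ζ‖ = 1) (κ : ℝ) {s : ℝ} (hs : 0 < s) : ‖pt ζ κ s‖ < 1 := by
  rw [norm_pt hζ, Real.exp_lt_one_iff]; linarith

/-- terms of the exponent, multiplied by `s` -/
noncomputable def tm (a b : ℕ) (w ζ : ℂ) (κ s : ℝ) (k : ℕ) : ℂ :=
  s * (w ^ (k + 1) / (k + 1) *
    ((pt ζ κ s ^ (k + 1)) ^ b / (1 - (pt ζ κ s ^ (k + 1)) ^ a)))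

/-- limits of the terms -/
noncomputable def lm (a b : ℕ) (w ζ : ℂ) (κ : ℝ) (k : ℕ) : ℂ :=
  if ζ ^ (a * (k + 1)) = 1 then
    (w * ζ ^ b) ^ (k + 1) / ((k + 1) ^ 2 * a * (1 + κ * Complex.I)) else 0

lemma norm_cast_succ (k : ℕ) : ‖((k : ℂ) + 1)‖ = (k : ℝ) + 1 := by
  rw [← Nat.cast_add_one, Complex.norm_natCast]; push_cast; ring

lemma norm_tm_le (ha : 1 ≤ a) (hb : 1 ≤ b) {w ζ : ℂ} (hw : ‖w‖ ≤ 1) (hζ : ‖ζ‖ = 1) (κ : ℝ)
    {s : ℝ} (hs : 0 < s) (k : ℕ) : ‖tm a b w ζ κ s k‖ ≤ 1 / ((k : ℝ) + 1) ^ 2 := by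
  have hk : (0 : ℝ) < (k : ℝ) + 1 := by positivity
  set y := pt ζ κ s ^ (k + 1) with hy
  have hyn : ‖y‖ = Real.exp (-(s * (k + 1))) := by
    rw [hy, norm_pow, norm_pt hζ, ← Real.exp_nat_mul]
    congr 1; push_cast; ring
  set ρ := Real.exp (-(s * ((k : ℝ) + 1))) with hρ
  have hρ0 : 0 < ρ := Real.exp_pos _
  have hρ1 : ρ < 1 := by
    rw [hρ, Real.exp_lt_one_iff]
    have : 0 < s * ((k : ℝ) + 1) := by positivity
    linarith
  have hρa : ρ ^ a ≤ ρ := by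
    calc ρ ^ a ≤ ρ ^ 1 := pow_le_pow_of_le_one hρ0.le hρ1.le ha
      _ = ρ := pow_one _
  have hρb : ρ ^ b ≤ ρ := by
    calc ρ ^ b ≤ ρ ^ 1 := pow_le_pow_of_le_one hρ0.le hρ1.le hb
      _ = ρ := pow_one _
  have h1 : 1 - ρ ≤ ‖1 - y ^ a‖ := by
    have := norm_sub_norm_le (1 : ℂ) (y ^ a)
    rw [norm_one, norm_pow, hyn] at this
    linarith
  have h2 : ‖y ^ b / (1 - y ^ a)‖ ≤ ρ / (1 - ρ) := by
    rw [norm_div, norm_pow, hyn]
    exact div_le_div₀ hρ0.le hρb (by linarith) h1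
  have h3 : ρ / (1 - ρ) ≤ 1 / (s * (k + 1)) := by
    have h4 : s * ((k : ℝ) + 1) + 1 ≤ Real.exp (s * (k + 1)) := Real.add_one_le_exp _
    have h5 : ρ * Real.exp (s * (k + 1)) = 1 := by
      rw [hρ, ← Real.exp_add]; simp
    have h6 : 0 < s * ((k : ℝ) + 1) := by positivity
    rw [div_le_div_iff₀ (by linarith) h6]
    nlinarith
  rw [tm, norm_mul, norm_mul, norm_div, norm_pow, norm_cast_succ, Complex.norm_real,
    Real.norm_of_nonneg hs.le]
  have h7 : ‖w‖ ^ (k + 1) ≤ 1 := pow_le_one₀ (norm_nonneg _) hw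
  calc s * (‖w‖ ^ (k + 1) / ((k : ℝ) + 1) * ‖y ^ b / (1 - y ^ a)‖)
      ≤ s * (1 / ((k : ℝ) + 1) * (1 / (s * (k + 1)))) := by
        gcongr
        exact h2.trans h3
    _ = 1 / ((k : ℝ) + 1) ^ 2 := by field_simp

lemma tendsto_pt_pow (ζ : ℂ) (κ : ℝ) (n : ℕ) :
    Tendsto (fun s => pt ζ κ s ^ n) (𝓝[>] 0) (𝓝 (ζ ^ n)) := by
  have h : Continuous (fun s : ℝ => pt ζ κ s ^ n) := by
    unfold pt; fun_prop
  have h2 := (h.tendsto 0).mono_left (nhdsWithin_le_nhds (s := Set.Ioi 0))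
  have e : pt ζ κ 0 ^ n = ζ ^ n := by simp [pt]
  rwa [e] at h2

lemma tendsto_slope (c : ℂ) (hc : c ≠ 0) :
    Tendsto (fun s : ℝ => (s : ℂ) / (1 - Complex.exp (-(s * c)))) (𝓝[>] 0) (𝓝 (1 / c)) := by
  have h1 : HasDerivAt (fun s : ℝ => Complex.exp (-(s * c))) (-c) 0 := by
    have h2 : HasDerivAt (fun s : ℝ => -((s : ℂ) * c)) (-(1 * c)) 0 :=
      ((Complex.ofRealCLM.hasDerivAt (x := (0 : ℝ))).mul_const c).neg
    have h3 := h2.cexp
    simpa using h3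
  have h2 := h1.tendsto_slope_zero_right
  have h3 : Tendsto (fun t : ℝ => (1 - Complex.exp (-(t * c))) / (t : ℂ)) (𝓝[>] 0) (𝓝 c) := by
    have h4 := h2.neg
    rw [neg_neg] at h4
    refine h4.congr fun t => ?_
    simp only [zero_add, Complex.ofReal_zero, zero_mul, neg_zero, Complex.exp_zero]
    rw [Complex.real_smul]
    push_cast
    rw [div_eq_inv_mul]
    ring
  have h4 := h3.inv₀ hc
  rw [one_div]
  refine h4.congr fun t => ?_
  rw [inv_div]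

lemma one_add_ne (κ : ℝ) : (1 + κ * Complex.I : ℂ) ≠ 0 := by
  intro h
  have := congrArg Complex.re h
  simp at this

lemma tendsto_tm (ha : 1 ≤ a) {w ζ : ℂ} (κ : ℝ) (k : ℕ) :
    Tendsto (fun s => tm a b w ζ κ s k) (𝓝[>] 0) (𝓝 (lm a b w ζ κ k)) := by
  have hk : ((k : ℂ) + 1) ≠ 0 := by exact_mod_cast Nat.succ_ne_zero k
  have ha0 : (a : ℂ) ≠ 0 := by exact_mod_cast (by omega : a ≠ 0)
  have hb1 : Tendsto (fun s => (pt ζ κ s ^ (k + 1)) ^ b) (𝓝[>] 0) (𝓝 ((ζ ^ (k + 1)) ^ b)) :=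
    (tendsto_pt_pow ζ κ (k + 1)).pow b
  have ha1 : Tendsto (fun s => (pt ζ κ s ^ (k + 1)) ^ a) (𝓝[>] 0) (𝓝 ((ζ ^ (k + 1)) ^ a)) :=
    (tendsto_pt_pow ζ κ (k + 1)).pow a
  unfold lm
  split_ifs with h
  · have hc : ((k + 1) * a * (1 + κ * Complex.I) : ℂ) ≠ 0 :=
      mul_ne_zero (mul_ne_zero hk ha0) (one_add_ne κ)
    have h1 := tendsto_slope _ hc
    have h2 := ((h1.mul hb1).const_mul (w ^ (k + 1) / ((k : ℂ) + 1)))
    have e1 : w ^ (k + 1) / ((k : ℂ) + 1) * (1 / ((k + 1) * a * (1 + κ * Complex.I)) *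
        (ζ ^ (k + 1)) ^ b) =
        (w * ζ ^ b) ^ (k + 1) / ((k + 1) ^ 2 * a * (1 + κ * Complex.I)) := by
      have := one_add_ne κ
      rw [mul_pow, ← pow_mul, ← pow_mul, mul_comm b (k + 1)]
      field_simp
    rw [← e1]
    refine h2.congr fun s => ?_
    have e2 : (pt ζ κ s ^ (k + 1)) ^ a =
        Complex.exp (-(s * ((k + 1) * a * (1 + κ * Complex.I)))) := by
      rw [← pow_mul, pt, mul_pow, mul_comm (k + 1) a, h, one_mul, ← Complex.exp_nat_mul]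
      congr 1
      push_cast
      ring
    rw [tm, e2]
    ring
  · have h1 : (1 - (ζ ^ (k + 1)) ^ a) ≠ 0 := by
      rw [← pow_mul, mul_comm (k + 1) a, sub_ne_zero]
      exact fun h' => h h'.symm
    have hs : Tendsto (fun s : ℝ => (s : ℂ)) (𝓝[>] 0) (𝓝 0) := by
      have := (Complex.continuous_ofReal.tendsto 0).mono_left
        (nhdsWithin_le_nhds (s := Set.Ioi (0 : ℝ)))
      simpa using this
    have h2 := hs.mul ((hb1.div (ha1.const_sub 1) h1).const_mul (w ^ (k + 1) / ((k : ℂ) + 1)))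
    rw [zero_mul] at h2
    exact h2

lemma summable_inv_sq : Summable (fun k : ℕ => 1 / ((k : ℝ) + 1) ^ 2) := by
  have h := (summable_nat_add_iff 1).2 (Real.summable_one_div_nat_pow.2 (by norm_num : 1 < 2))
  refine h.congr fun k => ?_
  push_cast
  rfl

/-- **Asymptotics of the exponent** -/
theorem tendsto_GG (h : IsAP A a b) {w ζ : ℂ} (hw : ‖w‖ ≤ 1) (hζ : ‖ζ‖ = 1) (κ : ℝ) :
    Tendsto (fun s : ℝ => (s : ℂ) * GG A w (pt ζ κ s)) (𝓝[>] 0)
      (𝓝 (∑' k, lm a b w ζ κ k)) := by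
  have h1 : Tendsto (fun s => ∑' k, tm a b w ζ κ s k) (𝓝[>] 0) (𝓝 (∑' k, lm a b w ζ κ k)) := by
    refine tendsto_tsum_of_dominated_convergence summable_inv_sq
      (fun k => tendsto_tm h.apos κ k) ?_
    filter_upwards [self_mem_nhdsWithin] with s hs k
    exact norm_tm_le h.apos h.bpos hw hζ κ hs k
  refine h1.congr' ?_
  filter_upwards [self_mem_nhdsWithin] with s hs
  rw [GG, ← tsum_mul_left]
  refine tsum_congr fun k => ?_
  have hy : ‖pt ζ κ s ^ (k + 1)‖ < 1 := by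
    rw [norm_pow]
    exact pow_lt_one₀ (norm_nonneg _) (norm_pt_lt hζ κ hs) (by omega)
  rw [inner_sum h hy, tm]

lemma tendsto_re_GG (h : IsAP A a b) {w ζ : ℂ} (hw : ‖w‖ ≤ 1) (hζ : ‖ζ‖ = 1) (κ : ℝ) :
    Tendsto (fun s : ℝ => s * (GG A w (pt ζ κ s)).re) (𝓝[>] 0)
      (𝓝 (∑' k, lm a b w ζ κ k).re) := by
  have h1 := (Complex.continuous_re.tendsto _).comp (tendsto_GG h hw hζ κ)
  refine h1.congr fun s => ?_
  simp

/-- the final comparison of growth rates -/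
lemma growth_contra {ι : Type*} (J : Finset ι) (g : ℝ → ℝ) (u : ι → ℝ → ℝ) (l : ι → ℝ)
    {l0 m K C : ℝ} (hm : 0 ≤ m) (hml : m < l0) (hl : ∀ j ∈ J, l j ≤ m) (hK : 0 ≤ K) (hC : 0 ≤ C)
    (hg : Tendsto (fun s : ℝ => s * g s) (𝓝[>] 0) (𝓝 l0))
    (hu : ∀ j ∈ J, Tendsto (fun s : ℝ => s * u j s) (𝓝[>] 0) (𝓝 (l j)))
    (hb : ∀ᶠ s in 𝓝[>] (0 : ℝ), Real.exp (g s) ≤ K * ∑ j ∈ J, Real.exp (u j s) + C) : False := by
  set δ := (l0 - m) / 3 with hδ
  have hδ0 : 0 < δ := by rw [hδ]; linarith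
  have h1 : ∀ᶠ s in 𝓝[>] (0 : ℝ), l0 - δ < s * g s :=
    hg.eventually_const_lt (by linarith)
  have h2 : ∀ᶠ s in 𝓝[>] (0 : ℝ), ∀ j ∈ J, s * u j s < m + δ := by
    rw [Filter.eventually_all_finset]
    intro j hj
    exact (hu j hj).eventually_lt_const (by have := hl j hj; linarith)
  have h3 : Tendsto (fun s : ℝ => Real.exp (δ / s)) (𝓝[>] 0) atTop := by
    refine Real.tendsto_exp_atTop.comp ?_
    have e : (fun s : ℝ => δ / s) = fun s => δ * s⁻¹ := by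
      funext s; rw [div_eq_mul_inv]
    show Tendsto (fun s : ℝ => δ / s) _ _
    rw [e]
    exact tendsto_inv_nhdsGT_zero.const_mul_atTop hδ0
  have h4 : ∀ᶠ s in 𝓝[>] (0 : ℝ), K * J.card + C < Real.exp (δ / s) :=
    h3.eventually_gt_atTop _
  obtain ⟨s, hs1, hs2, hs3, hs4, hs5⟩ :=
    (h1.and (h2.and (h4.and (hb.and self_mem_nhdsWithin)))).exists
  have hs : (0 : ℝ) < s := hs5
  have h5 : (l0 - δ) / s ≤ g s := by
    rw [div_le_iff₀ hs]; linarith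
  have h6 : ∑ j ∈ J, Real.exp (u j s) ≤ J.card * Real.exp ((m + δ) / s) := by
    rw [← nsmul_eq_mul]
    refine Finset.sum_le_card_nsmul _ _ _ fun j hj => ?_
    rw [Real.exp_le_exp, le_div_iff₀ hs]
    have := hs2 j hj
    linarith
  have h7 : (1 : ℝ) ≤ Real.exp ((m + δ) / s) := Real.one_le_exp (by positivity)
  have h8 : Real.exp ((l0 - δ) / s) ≤ (K * J.card + C) * Real.exp ((m + δ) / s) := by
    calc Real.exp ((l0 - δ) / s) ≤ Real.exp (g s) := Real.exp_le_exp.2 h5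
      _ ≤ K * ∑ j ∈ J, Real.exp (u j s) + C := hs4
      _ ≤ K * (J.card * Real.exp ((m + δ) / s)) + C * Real.exp ((m + δ) / s) := by
          gcongr
          nlinarith
      _ = _ := by ring
  have h9 : Real.exp ((l0 - δ) / s) = Real.exp (δ / s) * Real.exp ((m + δ) / s) := by
    rw [← Real.exp_add]
    congr 1
    rw [hδ]
    field_simp
    ring
  rw [h9] at h8
  have h10 := le_of_mul_le_mul_right h8 (Real.exp_pos _)
  linarith

end Pool.Agent.Q36.PartExp
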