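import Pool.Agent.Q36.PartExp.Consts

/-!
Complex conjugation and the dilogarithm.
-/

open scoped Topology BigOperators ComplexConjugate
open Filter Finset

namespace Pool.Agent.Q36.PartExp

lemma conj_ee (x : ℝ) : conj (ee x) = ee (1 - x) := by
  have h : ee x * ee (1 - x) = 1 := by
    rw [← ee_add, show x + (1 - x) = 1 by ring, ee_one]
  have h1 : ee x ≠ 0 := by
    intro h0; have := norm_ee x; rw [h0] at this; simp at this
  have h2 : ee x * conj (ee x) = 1 := by
    rw [Complex.mul_conj, Complex.normSq_eq_norm_sq, norm_ee]; simp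
  exact mul_left_cancel₀ h1 (h2.trans h.symm)

lemma DD_conj (η : ℂ) : DD (conj η) = conj (DD η) := by
  unfold DD
  rw [Complex.conj_tsum]
  refine tsum_congr fun k => ?_
  rw [map_div₀, map_pow, map_pow, map_add, map_one, Complex.conj_natCast]

lemma nonradial_conj_le {a b : ℕ} (ha : 1 ≤ a) {w ζ : ℂ} (h : ζ ^ a = 1)
    (h2 : w * ζ ^ b = ee (5 / 6)) :
    (∑' k, lm a b w ζ 1 k).re ≤ Real.pi ^ 2 / 24 / a := by
  have ha0 : (0 : ℝ) < a := by exact_mod_cast (by omega : 0 < a)
  have h5 : ee (5 / 6) = conj (ee (1 / 6)) := by rw [conj_ee]; norm_num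
  rw [tsum_lm_of_pow_eq_one 1 h, h2, h5, DD_conj]
  set D := DD (ee (1 / 6)) with hD
  have e : conj D / ((a : ℂ) * (1 + ((1 : ℝ) : ℂ) * Complex.I)) =
      (conj D * (1 - Complex.I) / 2) / ((a : ℝ) : ℂ) := by
    have h3 : (1 + Complex.I : ℂ) ≠ 0 := by
      have := one_add_ne 1
      simpa using this
    have h4 : (a : ℂ) ≠ 0 := by exact_mod_cast (by omega : a ≠ 0)
    have h5 : (1 - Complex.I) * (1 + Complex.I) = 2 := by
      ring_nf; rw [Complex.I_sq]; norm_num
    push_cast
    rw [one_mul, div_div, div_eq_div_iff (mul_ne_zero h4 h3) (mul_ne_zero two_ne_zero h4)]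
    linear_combination (-(conj D) * a) * h5
  rw [e, Complex.div_ofReal_re]
  apply div_le_div_of_nonneg_right _ ha0.le
  have h6 : (conj D * (1 - Complex.I) / 2).re = (D.re - D.im) / 2 := by
    have : (conj D * (1 - Complex.I) / 2) =
      (conj D * (1 - Complex.I)) / ((2 : ℝ) : ℂ) := by push_cast; ring
    rw [this, Complex.div_ofReal_re]
    simp
  rw [h6, hD, re_DD ⟨by norm_num, by norm_num⟩]
  have h7 := im_DD_gt
  have h8 : 0 < Real.pi ^ 2 := by positivity
  nlinarith

end Pool.Agent.Q36.PartExp
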