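import Pool.Agent.Q36.PartExp.AP

/-!
Evaluation and estimation of the constants.
-/

open scoped Topology BigOperators
open Filter Finset

namespace Pool.Agent.Q36.PartExp

/-- the dilogarithm series -/
noncomputable def DD (η : ℂ) : ℂ := ∑' k : ℕ, η ^ (k + 1) / ((k : ℂ) + 1) ^ 2

lemma norm_term_DD {η : ℂ} (hη : ‖η‖ = 1) (k : ℕ) :
    ‖η ^ (k + 1) / ((k : ℂ) + 1) ^ 2‖ = 1 / ((k : ℝ) + 1) ^ 2 := by
  rw [norm_div, norm_pow, norm_pow, hη, one_pow, norm_cast_succ]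

lemma summable_DD {η : ℂ} (hη : ‖η‖ = 1) :
    Summable (fun k : ℕ => η ^ (k + 1) / ((k : ℂ) + 1) ^ 2) := by
  refine Summable.of_norm ?_
  simp_rw [norm_term_DD hη]
  exact summable_inv_sq

lemma hasSum_inv_sq : HasSum (fun k : ℕ => 1 / ((k : ℝ) + 1) ^ 2) (Real.pi ^ 2 / 6) := by
  have h := (hasSum_nat_add_iff' 1).2 hasSum_zeta_two
  simp only [Finset.range_one, Finset.sum_singleton, Nat.cast_zero] at h
  have e : Real.pi ^ 2 / 6 - 1 / (0 : ℝ) ^ 2 = Real.pi ^ 2 / 6 := by norm_num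
  rw [e] at h
  have e2 : (fun k : ℕ => 1 / ((k : ℝ) + 1) ^ 2) = fun k : ℕ => 1 / (((k + 1 : ℕ) : ℝ)) ^ 2 := by
    funext k; push_cast; rfl
  rw [e2]; exact h

/-- `e^{2π i x}` -/
noncomputable def ee (x : ℝ) : ℂ := Complex.exp ((2 * Real.pi * x : ℝ) * Complex.I)

lemma norm_ee (x : ℝ) : ‖ee x‖ = 1 := by rw [ee, Complex.norm_exp_ofReal_mul_I]

lemma ee_pow (x : ℝ) (n : ℕ) : ee x ^ n = ee (n * x) := by
  rw [ee, ee, ← Complex.exp_nat_mul]
  congr 1; push_cast; ring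

lemma re_ee (x : ℝ) : (ee x).re = Real.cos (2 * Real.pi * x) := by
  rw [ee, Complex.exp_ofReal_mul_I_re]

lemma im_ee (x : ℝ) : (ee x).im = Real.sin (2 * Real.pi * x) := by
  rw [ee, Complex.exp_ofReal_mul_I_im]

lemma ee_add (x y : ℝ) : ee (x + y) = ee x * ee y := by
  rw [ee, ee, ee, ← Complex.exp_add]; congr 1; push_cast; ring

lemma ee_one : ee 1 = 1 := by
  rw [ee]
  have : ((2 * Real.pi * 1 : ℝ) : ℂ) * Complex.I = 2 * Real.pi * Complex.I := by push_cast; ring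
  rw [this, Complex.exp_two_pi_mul_I]

lemma ee_half : ee (1 / 2) = -1 := by
  rw [ee]
  have : ((2 * Real.pi * (1 / 2) : ℝ) : ℂ) * Complex.I = Real.pi * Complex.I := by
    push_cast; ring
  rw [this, Complex.exp_pi_mul_I]

lemma term_re (x : ℝ) (k : ℕ) :
    (ee x ^ (k + 1) / ((k : ℂ) + 1) ^ 2).re =
      Real.cos (2 * Real.pi * (k + 1) * x) / ((k : ℝ) + 1) ^ 2 := by
  have h : ((k : ℂ) + 1) ^ 2 = ((((k : ℝ) + 1) ^ 2 : ℝ) : ℂ) := by push_cast; ring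
  rw [h, Complex.div_ofReal_re, ee_pow, re_ee]
  congr 2
  push_cast; ring

lemma term_im (x : ℝ) (k : ℕ) :
    (ee x ^ (k + 1) / ((k : ℂ) + 1) ^ 2).im =
      Real.sin (2 * Real.pi * (k + 1) * x) / ((k : ℝ) + 1) ^ 2 := by
  have h : ((k : ℂ) + 1) ^ 2 = ((((k : ℝ) + 1) ^ 2 : ℝ) : ℂ) := by push_cast; ring
  rw [h, Complex.div_ofReal_im, ee_pow, im_ee]
  congr 2
  push_cast; ring

lemma re_DD {x : ℝ} (hx : x ∈ Set.Icc (0 : ℝ) 1) :
    (DD (ee x)).re = Real.pi ^ 2 * (x ^ 2 - x + 1 / 6) := by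
  have h1 := hasSum_one_div_nat_pow_mul_cos (k := 1) one_ne_zero hx
  have h2 : ((-1 : ℝ) ^ (1 + 1) * (2 * Real.pi) ^ (2 * 1) / 2 / (Nat.factorial (2 * 1)) *
        (Polynomial.map (algebraMap ℚ ℝ) (Polynomial.bernoulli (2 * 1))).eval x) =
        Real.pi ^ 2 * (x ^ 2 - x + 1 / 6) := by
    have h3 : Polynomial.map (algebraMap ℚ ℝ) (Polynomial.bernoulli 2) =
        Polynomial.X ^ 2 - Polynomial.X + Polynomial.C (1 / 6) := by
      rw [Polynomial.bernoulli]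
      simp [Finset.sum_range_succ, bernoulli_two, bernoulli_one,
        Polynomial.map_add]
      simp [← Polynomial.C_mul_X_pow_eq_monomial]
      ring
    have h9 : (Polynomial.X ^ 2 - Polynomial.X + Polynomial.C (1 / 6) : Polynomial ℝ).eval x =
        x ^ 2 - x + 1 / 6 := by simp
    have h10 : ((Nat.factorial 2 : ℕ) : ℝ) = 2 := by norm_num [Nat.factorial]
    rw [mul_one, h3, h9, h10]
    ring
  rw [h2] at h1
  have h4 := (hasSum_nat_add_iff' 1).2 h1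
  simp only [Finset.range_one, Finset.sum_singleton, Nat.cast_zero] at h4
  have e1 : Real.pi ^ 2 * (x ^ 2 - x + 1 / 6) - 1 / (0 : ℝ) ^ (2 * 1) *
      Real.cos (2 * Real.pi * 0 * x) = Real.pi ^ 2 * (x ^ 2 - x + 1 / 6) := by norm_num
  rw [e1] at h4
  have h5 := Complex.hasSum_re (summable_DD (norm_ee x)).hasSum
  have h6 : (fun k : ℕ => (ee x ^ (k + 1) / ((k : ℂ) + 1) ^ 2).re) =
      fun k : ℕ => 1 / (((k + 1 : ℕ) : ℝ)) ^ (2 * 1) * Real.cos (2 * Real.pi * ((k + 1 : ℕ) : ℝ) * x) := by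
    funext k
    rw [term_re]
    push_cast
    ring
  rw [h6] at h5
  exact h5.unique h4

/-- the imaginary part at `e^{iπ/3}` -/
lemma im_DD_sixth : 5 / 4 * (1 + Real.sqrt 3 / 2) - Real.pi ^ 2 / 6 ≤ (DD (ee (1 / 6))).im := by
  have h5 := Complex.hasSum_im (summable_DD (norm_ee (1 / 6))).hasSum
  have h6 := h5.add hasSum_inv_sq
  have h7 : ∑ k ∈ range 2, ((ee (1 / 6) ^ (k + 1) / ((k : ℂ) + 1) ^ 2).im +
      1 / ((k : ℝ) + 1) ^ 2) ≤ (∑' k : ℕ, ee (1 / 6) ^ (k + 1) / ((k : ℂ) + 1) ^ 2).im +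
        Real.pi ^ 2 / 6 := by
    refine sum_le_hasSum _ (fun k _ => ?_) h6
    rw [term_im, ← add_div]
    apply div_nonneg _ (by positivity)
    have := Real.neg_one_le_sin (2 * Real.pi * (k + 1) * (1 / 6))
    linarith
  have e0 : (ee (1 / 6) ^ (0 + 1) / (((0 : ℕ) : ℂ) + 1) ^ 2).im = Real.sqrt 3 / 2 := by
    rw [term_im]
    have : 2 * Real.pi * (((0 : ℕ) : ℝ) + 1) * (1 / 6) = Real.pi / 3 := by push_cast; ring
    rw [this, Real.sin_pi_div_three]; norm_num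
  have e1 : (ee (1 / 6) ^ (1 + 1) / (((1 : ℕ) : ℂ) + 1) ^ 2).im = Real.sqrt 3 / 2 / 4 := by
    rw [term_im]
    have : 2 * Real.pi * (((1 : ℕ) : ℝ) + 1) * (1 / 6) = Real.pi - Real.pi / 3 := by
      push_cast; ring
    rw [this, Real.sin_pi_sub, Real.sin_pi_div_three]; norm_num
  rw [Finset.sum_range_succ, Finset.sum_range_succ, Finset.sum_range_zero, e0, e1] at h7
  unfold DD
  norm_num at h7 ⊢
  linarith

lemma im_DD_gt : Real.pi ^ 2 / 18 < (DD (ee (1 / 6))).im := by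
  refine lt_of_lt_of_le ?_ im_DD_sixth
  have h1 : Real.pi < 3.15 := Real.pi_lt_d2
  have h0 : 0 < Real.pi := Real.pi_pos
  have h2 : (1.73 : ℝ) ≤ Real.sqrt 3 := by
    apply Real.le_sqrt_of_sq_le; norm_num
  nlinarith

/-- limit when `ζ ^ a = 1` -/
lemma tsum_lm_of_pow_eq_one {a b : ℕ} {w ζ : ℂ} (κ : ℝ) (h : ζ ^ a = 1) :
    ∑' k, lm a b w ζ κ k = DD (w * ζ ^ b) / (a * (1 + κ * Complex.I)) := by
  unfold DD
  rw [← tsum_div_const]
  refine tsum_congr fun k => ?_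
  rw [lm, if_pos (by rw [pow_mul, h, one_pow])]
  rw [div_div, mul_assoc]

lemma hasSum_dvd {d : ℕ} (hd : 0 < d) :
    HasSum (fun k : ℕ => if d ∣ (k + 1) then 1 / ((k : ℝ) + 1) ^ 2 else 0)
      (1 / (d : ℝ) ^ 2 * (Real.pi ^ 2 / 6)) := by
  have hinj : Function.Injective (fun j : ℕ => d * (j + 1) - 1) := by
    intro i j hij
    simp only at hij
    have h1 : 0 < d * (i + 1) := by positivity
    have h2 : 0 < d * (j + 1) := by positivity
    have h3 : d * (i + 1) = d * (j + 1) := by omega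
    have := Nat.eq_of_mul_eq_mul_left hd h3
    omega
  rw [← hinj.hasSum_iff]
  · have e : ((fun k : ℕ => if d ∣ (k + 1) then 1 / ((k : ℝ) + 1) ^ 2 else 0) ∘
        fun j : ℕ => d * (j + 1) - 1) = fun j : ℕ => 1 / (d : ℝ) ^ 2 * (1 / ((j : ℝ) + 1) ^ 2) := by
      funext j
      simp only [Function.comp]
      have h1 : 0 < d * (j + 1) := by positivity
      have h2 : d * (j + 1) - 1 + 1 = d * (j + 1) := by omega
      have h3 : ((d * (j + 1) - 1 : ℕ) : ℝ) + 1 = d * ((j : ℝ) + 1) := by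
        rw [← Nat.cast_add_one, h2]; push_cast; ring
      rw [h2, if_pos (Dvd.intro _ rfl), h3, mul_pow]
      rw [one_div_mul_one_div]
    rw [e]
    exact hasSum_inv_sq.mul_left _
  · intro i hi
    rw [if_neg]
    rintro ⟨j, hj⟩
    apply hi
    rcases j with _ | j
    · omega
    · exact ⟨j, by simp only; omega⟩

lemma norm_lm_le {a b : ℕ} (ha : 1 ≤ a) {w ζ : ℂ} (hw : ‖w‖ ≤ 1) (hζ : ‖ζ‖ = 1) (k : ℕ) :
    ‖lm a b w ζ 0 k‖ ≤ if ζ ^ (a * (k + 1)) = 1 then 1 / ((k : ℝ) + 1) ^ 2 / a else 0 := by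
  unfold lm
  split_ifs
  · have h1 : ‖(w * ζ ^ b) ^ (k + 1)‖ ≤ 1 := by
      rw [norm_pow, norm_mul, norm_pow, hζ, one_pow, mul_one]
      exact pow_le_one₀ (norm_nonneg _) hw
    rw [norm_div, norm_mul, norm_mul, norm_pow ((k : ℂ) + 1), norm_cast_succ,
      Complex.norm_natCast]
    have h2 : ‖(1 + ((0 : ℝ) : ℂ) * Complex.I)‖ = 1 := by simp
    rw [h2, mul_one, div_div]
    gcongr
  · simp

/-- limit when `ζ ^ a ≠ 1` -/
lemma re_tsum_lm_le {a b : ℕ} (ha : 1 ≤ a) {w ζ : ℂ} (hw : ‖w‖ ≤ 1) (hζ : ‖ζ‖ = 1)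
    (h : ζ ^ a ≠ 1) : (∑' k, lm a b w ζ 0 k).re ≤ Real.pi ^ 2 / 24 / a := by
  have ha0 : (0 : ℝ) < a := by exact_mod_cast (by omega : 0 < a)
  set d := orderOf (ζ ^ a) with hd
  have hd1 : d ≠ 1 := by
    rw [hd, Ne, orderOf_eq_one_iff]; exact h
  have hiff : ∀ k : ℕ, ζ ^ (a * (k + 1)) = 1 ↔ d ∣ (k + 1) := by
    intro k; rw [pow_mul, hd, orderOf_dvd_iff_pow_eq_one]
  rcases Nat.eq_zero_or_pos d with hd0 | hd0
  · have h0 : ∀ k, lm a b w ζ 0 k = 0 := by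
      intro k
      rw [lm, if_neg]
      rw [hiff, hd0, zero_dvd_iff]; omega
    simp only [h0, tsum_zero, Complex.zero_re]
    positivity
  · have hs := (hasSum_dvd hd0).div_const (a : ℝ)
    have hb : ∀ k, ‖lm a b w ζ 0 k‖ ≤
        (if d ∣ (k + 1) then 1 / ((k : ℝ) + 1) ^ 2 else 0) / a := by
      intro k
      refine (norm_lm_le ha hw hζ k).trans ?_
      by_cases hk : d ∣ (k + 1)
      · rw [if_pos hk, if_pos ((hiff k).2 hk)]
      · rw [if_neg hk, if_neg (fun h' => hk ((hiff k).1 h')), zero_div]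
    have h1 : ‖∑' k, lm a b w ζ 0 k‖ ≤ 1 / (d : ℝ) ^ 2 * (Real.pi ^ 2 / 6) / a :=
      tsum_of_norm_bounded hs hb
    have h2 : (2 : ℝ) ≤ d := by exact_mod_cast (by omega : 2 ≤ d)
    calc (∑' k, lm a b w ζ 0 k).re ≤ ‖∑' k, lm a b w ζ 0 k‖ := Complex.re_le_norm _
      _ ≤ 1 / (d : ℝ) ^ 2 * (Real.pi ^ 2 / 6) / a := h1
      _ ≤ 1 / (2 : ℝ) ^ 2 * (Real.pi ^ 2 / 6) / a := by gcongr
      _ = Real.pi ^ 2 / 24 / a := by ring

/-- if all values `w ζ ^ b` with `ζ ^ a = 1` are `e^{2π i x}` with `1/6 ≤ x ≤ 5/6`, the radial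
growth is at most `π²/(24 a)` -/
lemma radial_le {a b : ℕ} (ha : 1 ≤ a) {w ζ : ℂ} (hw : ‖w‖ ≤ 1) (hζ : ‖ζ‖ = 1)
    (h : ζ ^ a = 1 → ∃ x : ℝ, 1 / 6 ≤ x ∧ x ≤ 5 / 6 ∧ w * ζ ^ b = ee x) :
    (∑' k, lm a b w ζ 0 k).re ≤ Real.pi ^ 2 / 24 / a := by
  by_cases h1 : ζ ^ a = 1
  · obtain ⟨x, hx1, hx2, hx3⟩ := h h1
    have ha0 : (0 : ℝ) < a := by exact_mod_cast (by omega : 0 < a)
    rw [tsum_lm_of_pow_eq_one 0 h1, hx3]
    have e : (a : ℂ) * (1 + ((0 : ℝ) : ℂ) * Complex.I) = ((a : ℝ) : ℂ) := by simp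
    rw [e, Complex.div_ofReal_re, re_DD ⟨by linarith, by linarith⟩]
    have h3 : x ^ 2 - x + 1 / 6 ≤ 1 / 24 := by nlinarith
    have h4 : 0 < Real.pi ^ 2 := by positivity
    apply div_le_div_of_nonneg_right _ ha0.le
    nlinarith
  · exact re_tsum_lm_le ha hw hζ h1

/-- the non radial growth at a point with `w ζ ^ b = e^{iπ/3}` -/
lemma nonradial_gt {a b : ℕ} (ha : 1 ≤ a) {w ζ : ℂ} (h : ζ ^ a = 1)
    (h2 : w * ζ ^ b = ee (1 / 6)) :
    Real.pi ^ 2 / 24 / a < (∑' k, lm a b w ζ 1 k).re := by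
  have ha0 : (0 : ℝ) < a := by exact_mod_cast (by omega : 0 < a)
  rw [tsum_lm_of_pow_eq_one 1 h, h2]
  have e : DD (ee (1 / 6)) / ((a : ℂ) * (1 + ((1 : ℝ) : ℂ) * Complex.I)) =
      (DD (ee (1 / 6)) * (1 - Complex.I) / 2) / ((a : ℝ) : ℂ) := by
    have h3 : (1 + Complex.I : ℂ) ≠ 0 := by
      have := one_add_ne 1
      simpa using this
    have h4 : (a : ℂ) ≠ 0 := by exact_mod_cast (by omega : a ≠ 0)
    have h5 : (1 - Complex.I) * (1 + Complex.I) = 2 := by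
      ring_nf; rw [Complex.I_sq]; norm_num
    push_cast
    rw [one_mul, div_div, div_eq_div_iff (mul_ne_zero h4 h3) (mul_ne_zero two_ne_zero h4)]
    linear_combination (-(DD (ee (1 / 6))) * a) * h5
  rw [e, Complex.div_ofReal_re]
  apply div_lt_div_of_pos_right _ ha0
  have h6 : (DD (ee (1 / 6)) * (1 - Complex.I) / 2).re =
      ((DD (ee (1 / 6))).re + (DD (ee (1 / 6))).im) / 2 := by
    have : (DD (ee (1 / 6)) * (1 - Complex.I) / 2) =
      (DD (ee (1 / 6)) * (1 - Complex.I)) / ((2 : ℝ) : ℂ) := by push_cast; ring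
    rw [this, Complex.div_ofReal_re]
    simp
  rw [h6, re_DD ⟨by norm_num, by norm_num⟩]
  have h7 := im_DD_gt
  have h8 : 0 < Real.pi ^ 2 := by positivity
  nlinarith

end Pool.Agent.Q36.PartExp
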