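import Mathlib

/-!
Evaluation of formal power series at points of the unit disc.
-/

open scoped Topology BigOperators
open Filter Finset

namespace Pool.Agent.Q36.PartExp

/-- the sum of absolute values of the terms at radius `r` -/
noncomputable def NS (r : ℝ) (P : PowerSeries ℂ) : ℝ := ∑' n, ‖PowerSeries.coeff n P‖ * r ^ n

/-- absolute summability at radius `r` -/
def Su (r : ℝ) (P : PowerSeries ℂ) : Prop := Summable (fun n => ‖PowerSeries.coeff n P‖ * r ^ n)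

/-- the value at `x` -/
noncomputable def Ev (x : ℂ) (P : PowerSeries ℂ) : ℂ := ∑' n, PowerSeries.coeff n P * x ^ n

lemma Su.norm {x : ℂ} {P : PowerSeries ℂ} (h : Su ‖x‖ P) :
    Summable (fun n => ‖PowerSeries.coeff n P * x ^ n‖) := by
  simpa [Su, norm_mul, norm_pow] using h

lemma Su.summable {x : ℂ} {P : PowerSeries ℂ} (h : Su ‖x‖ P) :
    Summable (fun n => PowerSeries.coeff n P * x ^ n) := h.norm.of_norm

lemma Ev_mul {x : ℂ} {P Q : PowerSeries ℂ} (hP : Su ‖x‖ P) (hQ : Su ‖x‖ Q) :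
    Ev x (P * Q) = Ev x P * Ev x Q := by
  unfold Ev
  rw [tsum_mul_tsum_eq_tsum_sum_antidiagonal_of_summable_norm hP.norm hQ.norm]
  refine tsum_congr fun n => ?_
  rw [PowerSeries.coeff_mul, Finset.sum_mul]
  refine Finset.sum_congr rfl fun kl hkl => ?_
  rw [Finset.HasAntidiagonal.mem_antidiagonal] at hkl
  rw [← hkl, pow_add]
  ring

lemma term_le {r : ℝ} (hr : 0 ≤ r) (P Q : PowerSeries ℂ) (n : ℕ) :
    ‖PowerSeries.coeff n (P * Q)‖ * r ^ n ≤ ∑ kl ∈ antidiagonal n,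
      (‖PowerSeries.coeff kl.1 P‖ * r ^ kl.1) * (‖PowerSeries.coeff kl.2 Q‖ * r ^ kl.2) := by
  have h : ∑ kl ∈ antidiagonal n,
      (‖PowerSeries.coeff kl.1 P‖ * r ^ kl.1) * (‖PowerSeries.coeff kl.2 Q‖ * r ^ kl.2) =
      (∑ kl ∈ antidiagonal n, ‖PowerSeries.coeff kl.1 P * PowerSeries.coeff kl.2 Q‖) * r ^ n := by
    rw [Finset.sum_mul]
    refine Finset.sum_congr rfl fun kl hkl => ?_
    rw [Finset.HasAntidiagonal.mem_antidiagonal] at hkl
    rw [← hkl, pow_add, norm_mul]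
    ring
  rw [h, PowerSeries.coeff_mul]
  exact mul_le_mul_of_nonneg_right (norm_sum_le _ _) (pow_nonneg hr n)

lemma Su_mul_aux {r : ℝ} (hr : 0 ≤ r) {P Q : PowerSeries ℂ} (hP : Su r P) (hQ : Su r Q) :
    Summable (fun n => ∑ kl ∈ antidiagonal n,
      (‖PowerSeries.coeff kl.1 P‖ * r ^ kl.1) * (‖PowerSeries.coeff kl.2 Q‖ * r ^ kl.2)) := by
  have h1 : Summable (fun n => ‖‖PowerSeries.coeff n P‖ * r ^ n‖) :=
    Summable.norm (f := fun n => ‖PowerSeries.coeff n P‖ * r ^ n) hP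
  have h2 : Summable (fun n => ‖‖PowerSeries.coeff n Q‖ * r ^ n‖) :=
    Summable.norm (f := fun n => ‖PowerSeries.coeff n Q‖ * r ^ n) hQ
  have h3 := summable_norm_sum_mul_antidiagonal_of_summable_norm h1 h2
  exact Summable.of_norm h3

lemma Su_mul {r : ℝ} (hr : 0 ≤ r) {P Q : PowerSeries ℂ} (hP : Su r P) (hQ : Su r Q) :
    Su r (P * Q) :=
  (Su_mul_aux hr hP hQ).of_nonneg_of_le (fun n => by positivity) (term_le hr P Q)

lemma NS_mul_le {r : ℝ} (hr : 0 ≤ r) {P Q : PowerSeries ℂ} (hP : Su r P) (hQ : Su r Q) :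
    NS r (P * Q) ≤ NS r P * NS r Q := by
  unfold NS
  have h1 : Summable (fun n => ‖‖PowerSeries.coeff n P‖ * r ^ n‖) :=
    Summable.norm (f := fun n => ‖PowerSeries.coeff n P‖ * r ^ n) hP
  have h2 : Summable (fun n => ‖‖PowerSeries.coeff n Q‖ * r ^ n‖) :=
    Summable.norm (f := fun n => ‖PowerSeries.coeff n Q‖ * r ^ n) hQ
  rw [tsum_mul_tsum_eq_tsum_sum_antidiagonal_of_summable_norm h1 h2]
  exact (Su_mul hr hP hQ).tsum_le_tsum (term_le hr P Q) (Su_mul_aux hr hP hQ)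

lemma NS_nonneg {r : ℝ} (hr : 0 ≤ r) (P : PowerSeries ℂ) : 0 ≤ NS r P :=
  tsum_nonneg fun n => by positivity

lemma Su_one (r : ℝ) : Su r 1 := by
  refine summable_of_ne_finset_zero (s := {0}) fun n hn => ?_
  rw [Finset.mem_singleton] at hn
  simp [PowerSeries.coeff_one, hn]

lemma Ev_one (x : ℂ) : Ev x 1 = 1 := by
  unfold Ev
  rw [tsum_eq_single 0]
  · simp
  · intro n hn; simp [PowerSeries.coeff_one, hn]

lemma NS_one (r : ℝ) : NS r 1 = 1 := by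
  unfold NS
  rw [tsum_eq_single 0]
  · simp
  · intro n hn; simp [PowerSeries.coeff_one, hn]

/-- the geometric series `∑ (w X^a)^j` -/
noncomputable def geo (w : ℂ) (a : ℕ) : PowerSeries ℂ :=
  PowerSeries.mk (fun n => if a ∣ n then w ^ (n / a) else 0)

lemma coeff_geo (w : ℂ) (a n : ℕ) :
    PowerSeries.coeff n (geo w a) = if a ∣ n then w ^ (n / a) else 0 := by
  simp [geo]

lemma hasSum_geo_aux {a : ℕ} (ha : 0 < a) (f : ℕ → ℕ → ℂ) {S : ℂ}
    (h : HasSum (fun j => f (a * j) j) S) :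
    HasSum (fun n => if a ∣ n then f n (n / a) else 0) S := by
  have hinj : Function.Injective (fun j : ℕ => a * j) := fun i j hij =>
    Nat.eq_of_mul_eq_mul_left ha hij
  rw [← hinj.hasSum_iff]
  · convert h using 2 with j
    simp [Nat.mul_div_cancel_left _ ha]
  · intro n hn
    rw [if_neg]
    rintro ⟨j, rfl⟩
    exact hn ⟨j, rfl⟩

lemma hasSum_geo {w : ℂ} (hw : ‖w‖ ≤ 1) {a : ℕ} (ha : 0 < a) {x : ℂ} (hx : ‖x‖ < 1) :
    HasSum (fun n => PowerSeries.coeff n (geo w a) * x ^ n) (1 - w * x ^ a)⁻¹ := by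
  have h1 : ‖w * x ^ a‖ < 1 := by
    rw [norm_mul, norm_pow]
    calc ‖w‖ * ‖x‖ ^ a ≤ 1 * ‖x‖ ^ a := by gcongr
      _ < 1 := by rw [one_mul]; exact pow_lt_one₀ (norm_nonneg _) hx ha.ne'
  have h2 := hasSum_geometric_of_norm_lt_one h1
  have h3 : HasSum (fun j => w ^ j * x ^ (a * j)) (1 - w * x ^ a)⁻¹ := by
    have h5 : (fun j => w ^ j * x ^ (a * j)) = fun j => (w * x ^ a) ^ j := by
      funext j; rw [mul_pow, pow_mul]
    rw [h5]; exact h2
  have h4 := hasSum_geo_aux ha (fun n j => w ^ j * x ^ n) h3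
  convert h4 using 2 with n
  rw [coeff_geo]
  split_ifs <;> simp

lemma Ev_geo {w : ℂ} (hw : ‖w‖ ≤ 1) {a : ℕ} (ha : 0 < a) {x : ℂ} (hx : ‖x‖ < 1) :
    Ev x (geo w a) = (1 - w * x ^ a)⁻¹ := (hasSum_geo hw ha hx).tsum_eq

lemma norm_coeff_geo_le {w : ℂ} (hw : ‖w‖ ≤ 1) (a n : ℕ) :
    ‖PowerSeries.coeff n (geo w a)‖ ≤ if a ∣ n then 1 else 0 := by
  rw [coeff_geo]
  split_ifs
  · rw [norm_pow]; exact pow_le_one₀ (norm_nonneg _) hw
  · simp

lemma hasSum_ind {a : ℕ} (ha : 0 < a) {r : ℝ} (hr0 : 0 ≤ r) (hr : r < 1) :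
    HasSum (fun n => (if a ∣ n then (1 : ℝ) else 0) * r ^ n) (1 - r ^ a)⁻¹ := by
  have h := hasSum_geo (w := 1) (by simp) ha (x := (r : ℂ))
    (by rw [Complex.norm_real, Real.norm_of_nonneg hr0]; exact hr)
  rw [← Complex.hasSum_ofReal]
  convert h using 2 with n
  · rw [coeff_geo]; push_cast; split_ifs <;> simp
  · push_cast; simp

lemma Su_geo {w : ℂ} (hw : ‖w‖ ≤ 1) {a : ℕ} (ha : 0 < a) {r : ℝ} (hr0 : 0 ≤ r) (hr : r < 1) :
    Su r (geo w a) :=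
  (hasSum_ind ha hr0 hr).summable.of_nonneg_of_le (fun n => by positivity) fun n =>
    mul_le_mul_of_nonneg_right (norm_coeff_geo_le hw a n) (pow_nonneg hr0 n)

lemma NS_geo_le {w : ℂ} (hw : ‖w‖ ≤ 1) {a : ℕ} (ha : 0 < a) {r : ℝ} (hr0 : 0 ≤ r)
    (hr : r < 1) : NS r (geo w a) ≤ (1 - r ^ a)⁻¹ := by
  rw [← (hasSum_ind ha hr0 hr).tsum_eq]
  exact (Su_geo hw ha hr0 hr).tsum_le_tsum (fun n =>
    mul_le_mul_of_nonneg_right (norm_coeff_geo_le hw a n) (pow_nonneg hr0 n))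
    (hasSum_ind ha hr0 hr).summable

end Pool.Agent.Q36.PartExp
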