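import Pool.Agent.Q36.PartExp.Gen

/-!
The generating function as the exponential of a double series.
-/

open scoped Topology BigOperators
open Filter Finset

namespace Pool.Agent.Q36.PartExp

/-- the double series terms -/
noncomputable def TT (A : ℕ → Prop) [DecidablePred A] (w x : ℂ) (q : ℕ × ℕ) : ℂ :=
  if A (q.1 + 1) then (w * x ^ (q.1 + 1)) ^ (q.2 + 1) / (q.2 + 1) else 0

variable {A : ℕ → Prop} [DecidablePred A] {w x : ℂ}

lemma norm_TT_le (hw : ‖w‖ ≤ 1) (hx : ‖x‖ < 1) (q : ℕ × ℕ) :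
    ‖TT A w x q‖ ≤ ‖x‖ ^ q.1 * ‖x‖ ^ q.2 := by
  unfold TT
  split_ifs
  · rw [norm_div, norm_pow, norm_mul, norm_pow]
    have h1 : ‖((q.2 : ℂ) + 1)‖ = (q.2 : ℝ) + 1 := by
      rw [← Nat.cast_add_one, Complex.norm_natCast]; push_cast; ring
    rw [h1]
    have h0 := norm_nonneg x
    calc (‖w‖ * ‖x‖ ^ (q.1 + 1)) ^ (q.2 + 1) / ((q.2 : ℝ) + 1)
        ≤ (‖w‖ * ‖x‖ ^ (q.1 + 1)) ^ (q.2 + 1) := by
          apply div_le_self (by positivity)
          have : (0 : ℝ) ≤ q.2 := Nat.cast_nonneg _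
          linarith
      _ ≤ (1 * ‖x‖ ^ (q.1 + 1)) ^ (q.2 + 1) := by gcongr
      _ = ‖x‖ ^ ((q.1 + 1) * (q.2 + 1)) := by rw [one_mul, ← pow_mul]
      _ ≤ ‖x‖ ^ (q.1 + q.2) := by
          apply pow_le_pow_of_le_one h0 hx.le
          nlinarith
      _ = _ := pow_add _ _ _
  · rw [norm_zero]; positivity

lemma summable_TT (hw : ‖w‖ ≤ 1) (hx : ‖x‖ < 1) : Summable (TT A w x) := by
  have h := summable_geometric_of_lt_one (norm_nonneg x) hx
  have h2 := h.mul_of_nonneg h (fun n => by positivity) (fun n => by positivity)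
  exact Summable.of_norm_bounded h2 (norm_TT_le hw hx)

/-- the logarithm of the `i`-th factor -/
noncomputable def LL (A : ℕ → Prop) [DecidablePred A] (w x : ℂ) (i : ℕ) : ℂ :=
  if A (i + 1) then -Complex.log (1 - w * x ^ (i + 1)) else 0

lemma norm_wx_lt (hw : ‖w‖ ≤ 1) (hx : ‖x‖ < 1) (i : ℕ) : ‖w * x ^ (i + 1)‖ < 1 := by
  rw [norm_mul, norm_pow]
  calc ‖w‖ * ‖x‖ ^ (i + 1) ≤ 1 * ‖x‖ ^ (i + 1) := by gcongr
    _ < 1 := by rw [one_mul]; exact pow_lt_one₀ (norm_nonneg _) hx (by omega)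

lemma hasSum_LL (hw : ‖w‖ ≤ 1) (hx : ‖x‖ < 1) (i : ℕ) :
    HasSum (fun k => TT A w x (i, k)) (LL A w x i) := by
  by_cases h : A (i + 1)
  · have e1 : (fun k => TT A w x (i, k)) =
        fun k : ℕ => (w * x ^ (i + 1)) ^ (k + 1) / ((k : ℂ) + 1) := by
      funext k; exact if_pos h
    have e2 : LL A w x i = -Complex.log (1 - w * x ^ (i + 1)) := if_pos h
    rw [e1, e2]
    exact Complex.hasSum_taylorSeries_neg_log' (norm_wx_lt hw hx i)
  · have e1 : (fun k => TT A w x (i, k)) = fun _ => 0 := by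
      funext k; exact if_neg h
    have e2 : LL A w x i = 0 := if_neg h
    rw [e1, e2]
    exact hasSum_zero

/-- the exponent -/
noncomputable def GG (A : ℕ → Prop) [DecidablePred A] (w x : ℂ) : ℂ :=
  ∑' k : ℕ, w ^ (k + 1) / (k + 1) * ∑' i : ℕ, if A (i + 1) then (x ^ (k + 1)) ^ (i + 1) else 0

lemma hasSum_GG (hw : ‖w‖ ≤ 1) (hx : ‖x‖ < 1) : HasSum (LL A w x) (GG A w x) := by
  have h := summable_TT (A := A) hw hx
  have h1 : HasSum (LL A w x) (∑' q, TT A w x q) :=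
    h.hasSum.prod_fiberwise (hasSum_LL hw hx)
  have h2 : ∑' q, TT A w x q = ∑' k, ∑' i, TT A w x (i, k) := by
    rw [← (Equiv.prodComm ℕ ℕ).tsum_eq]
    exact ((Equiv.prodComm ℕ ℕ).summable_iff.2 h).tsum_prod
  have h3 : ∑' k, ∑' i, TT A w x (i, k) = GG A w x := by
    unfold GG
    refine tsum_congr fun k => ?_
    rw [← tsum_mul_left]
    refine tsum_congr fun i => ?_
    unfold TT
    split_ifs
    · rw [mul_pow, ← pow_mul, ← pow_mul, mul_comm (i + 1) (k + 1)]; ring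
    · simp
  rw [← h3, ← h2]
  exact h1

lemma Ev_PP_eq_exp (hw : ‖w‖ ≤ 1) (M : ℕ) (hx : ‖x‖ < 1) :
    Ev x (PP A w M) = Complex.exp (∑ i ∈ range M, LL A w x i) := by
  rw [Ev_PP hw M hx, Complex.exp_sum]
  refine Finset.prod_congr rfl fun i _ => ?_
  unfold LL
  split_ifs
  · have h := norm_wx_lt hw hx i
    have h0 : 1 - w * x ^ (i + 1) ≠ 0 := by
      intro h0
      rw [← sub_eq_zero.1 h0] at h
      simp at h
    rw [Complex.exp_neg, Complex.exp_log h0]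
  · simp

/-- **The generating function.** -/
theorem gf (hw : ‖w‖ ≤ 1) (hx : ‖x‖ < 1) :
    ∑' n, cw A w n * x ^ n = Complex.exp (GG A w x) := by
  have h1 := tendsto_Ev_PP (A := A) hw hx
  have h2 : Tendsto (fun M => Ev x (PP A w M)) atTop (𝓝 (Complex.exp (GG A w x))) := by
    have h3 := (hasSum_GG (A := A) hw hx).tendsto_sum_nat
    have h4 := (Complex.continuous_exp.tendsto _).comp h3
    refine h4.congr fun M => ?_
    rw [Ev_PP_eq_exp hw M hx]; rfl
  exact tendsto_nhds_unique h1 h2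

lemma norm_gf (hw : ‖w‖ ≤ 1) (hx : ‖x‖ < 1) :
    ‖∑' n, cw A w n * x ^ n‖ = Real.exp (GG A w x).re := by
  rw [gf hw hx, Complex.norm_exp]

end Pool.Agent.Q36.PartExp
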