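import Pool.Agent.Q36.PartExp.Eval

/-!
Generating function of weighted restricted partition counts.
-/

open scoped Topology BigOperators PowerSeries.WithPiTopology
open Filter Finset

namespace Pool.Agent.Q36.PartExp

/-- the sum of `w ^ (number of parts)` over the partitions of `n` all of whose parts
satisfy `A` -/
noncomputable def cw (A : ℕ → Prop) [DecidablePred A] (w : ℂ) (n : ℕ) : ℂ :=
  ∑ p : n.Partition with ∀ i ∈ p.parts, A i, w ^ (Multiset.card p.parts)

/-- the weight function used for `genFun` -/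
noncomputable def wf (A : ℕ → Prop) [DecidablePred A] (w : ℂ) (i c : ℕ) : ℂ :=
  if A i then w ^ c else 0

lemma prod_wf (A : ℕ → Prop) [DecidablePred A] (w : ℂ) {n : ℕ} (p : n.Partition) :
    p.parts.toFinsupp.prod (wf A w) =
      if ∀ i ∈ p.parts, A i then w ^ (Multiset.card p.parts) else 0 := by
  unfold Finsupp.prod
  split_ifs with h
  · have : ∀ i ∈ p.parts.toFinsupp.support, wf A w i (p.parts.toFinsupp i) =
        w ^ (p.parts.count i) := by
      intro i hi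
      have hi' : i ∈ p.parts := by
        rw [Multiset.toFinsupp_support, Multiset.mem_toFinset] at hi; exact hi
      rw [wf, if_pos (h i hi'), Multiset.toFinsupp_apply]
    rw [Finset.prod_congr rfl this, Finset.prod_pow_eq_pow_sum, Multiset.toFinsupp_support,
      Multiset.toFinset_sum_count_eq]
  · push Not at h
    obtain ⟨i, hi, hA⟩ := h
    apply Finset.prod_eq_zero (i := i)
    · rw [Multiset.toFinsupp_support, Multiset.mem_toFinset]; exact hi
    · rw [wf, if_neg hA]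

lemma coeff_gen (A : ℕ → Prop) [DecidablePred A] (w : ℂ) (n : ℕ) :
    PowerSeries.coeff n (Nat.Partition.genFun (wf A w)) = cw A w n := by
  rw [Nat.Partition.coeff_genFun, cw, Finset.sum_filter]
  exact Finset.sum_congr rfl fun p _ => prod_wf A w p

lemma one_sub_mul_geo (w : ℂ) {a : ℕ} (ha : 0 < a) :
    (1 - PowerSeries.C w * PowerSeries.X ^ a) * geo w a = 1 := by
  ext n
  rw [sub_mul, one_mul, map_sub, mul_assoc, PowerSeries.coeff_C_mul,
    PowerSeries.coeff_X_pow_mul', coeff_geo, PowerSeries.coeff_one]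
  by_cases hd : a ∣ n
  · obtain ⟨q, rfl⟩ := hd
    rcases q with _ | q
    · simp [ha.ne']
    · have h1 : a ≤ a * (q + 1) := Nat.le_mul_of_pos_right a (by omega)
      have h2 : a * (q + 1) - a = a * q := by rw [mul_add, mul_one, Nat.add_sub_cancel]
      rw [if_pos ⟨_, rfl⟩, if_pos h1, h2, coeff_geo, if_pos ⟨_, rfl⟩, Nat.mul_div_cancel_left _ ha,
        Nat.mul_div_cancel_left _ ha, if_neg (by positivity), pow_succ]
      ring
  · have hn : n ≠ 0 := by rintro rfl; exact hd (dvd_zero a)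
    rw [if_neg hd, if_neg hn]
    split_ifs with h
    · rw [coeff_geo, if_neg, mul_zero, sub_zero]
      intro h'
      exact hd ((Nat.dvd_sub_iff_left h (dvd_refl a)).1 h')
    · simp

/-- the `i`-th factor of the product -/
noncomputable def fac (A : ℕ → Prop) [DecidablePred A] (w : ℂ) (i : ℕ) : PowerSeries ℂ :=
  if A (i + 1) then geo w (i + 1) else 1

lemma factor_eq (A : ℕ → Prop) [DecidablePred A] (w : ℂ) (i : ℕ) :
    (1 : PowerSeries ℂ) + ∑' j, wf A w (i + 1) (j + 1) •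
      (PowerSeries.X : PowerSeries ℂ) ^ ((i + 1) * (j + 1)) = fac A w i := by
  unfold fac
  split_ifs with h
  · have h0 : PowerSeries.constantCoeff
        (PowerSeries.C w * PowerSeries.X ^ (i + 1) : PowerSeries ℂ) = 0 := by simp
    have hs := PowerSeries.WithPiTopology.summable_pow_of_constantCoeff_eq_zero h0
    have h1 := PowerSeries.WithPiTopology.one_sub_mul_tsum_pow_of_constantCoeff_eq_zero h0
    have h2 := one_sub_mul_geo w (a := i + 1) (by omega)
    have h3 : ∑' j, (PowerSeries.C w * PowerSeries.X ^ (i + 1) : PowerSeries ℂ) ^ j =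
        geo w (i + 1) := by
      have h4 : geo w (i + 1) * (1 - PowerSeries.C w * PowerSeries.X ^ (i + 1)) = 1 := by
        rw [mul_comm]; exact h2
      exact (left_inv_eq_right_inv h4 h1).symm
    rw [← h3, hs.tsum_eq_zero_add, pow_zero]
    congr 1
    refine tsum_congr fun j => ?_
    rw [wf, if_pos h, mul_pow, ← map_pow, PowerSeries.smul_eq_C_mul, pow_mul]
  · have : ∀ j, wf A w (i + 1) (j + 1) •
      (PowerSeries.X : PowerSeries ℂ) ^ ((i + 1) * (j + 1)) = 0 := by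
      intro j; rw [wf, if_neg h, zero_smul]
    simp [this]

/-- partial products -/
noncomputable def PP (A : ℕ → Prop) [DecidablePred A] (w : ℂ) (M : ℕ) : PowerSeries ℂ :=
  ∏ i ∈ range M, fac A w i

lemma tendsto_coeff_PP (A : ℕ → Prop) [DecidablePred A] (w : ℂ) (n : ℕ) :
    Tendsto (fun M => PowerSeries.coeff n (PP A w M)) atTop (𝓝 (cw A w n)) := by
  have h := (Nat.Partition.hasProd_genFun (wf A w)).tendsto_prod_nat
  have h2 := (PowerSeries.WithPiTopology.tendsto_iff_coeff_tendsto _ _ _ _).1 h n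
  rw [coeff_gen] at h2
  refine h2.congr fun M => ?_
  rw [PP]
  congr 1
  exact Finset.prod_congr rfl fun i _ => factor_eq A w i

variable {A : ℕ → Prop} [DecidablePred A] {w : ℂ}

lemma Su_fac (hw : ‖w‖ ≤ 1) (i : ℕ) {r : ℝ} (hr0 : 0 ≤ r) (hr : r < 1) : Su r (fac A w i) := by
  unfold fac
  split_ifs
  · exact Su_geo hw (by omega) hr0 hr
  · exact Su_one r

lemma Ev_fac (hw : ‖w‖ ≤ 1) (i : ℕ) {x : ℂ} (hx : ‖x‖ < 1) :
    Ev x (fac A w i) = if A (i + 1) then (1 - w * x ^ (i + 1))⁻¹ else 1 := by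
  unfold fac
  split_ifs
  · exact Ev_geo hw (by omega) hx
  · exact Ev_one x

lemma one_div_one_sub_le {y : ℝ} (hy : y < 1) : (1 - y)⁻¹ ≤ Real.exp (y / (1 - y)) := by
  have h0 : 1 - y ≠ 0 := by linarith
  have h1 : (1 - y)⁻¹ = y / (1 - y) + 1 := by field_simp; ring
  rw [h1]
  exact Real.add_one_le_exp _

lemma NS_fac_le (hw : ‖w‖ ≤ 1) (i : ℕ) {r : ℝ} (hr0 : 0 ≤ r) (hr : r < 1) :
    NS r (fac A w i) ≤ Real.exp (r ^ (i + 1) / (1 - r)) := by
  have hp : r ^ (i + 1) ≤ r := by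
    calc r ^ (i + 1) ≤ r ^ 1 := pow_le_pow_of_le_one hr0 hr.le (by omega)
      _ = r := pow_one r
  unfold fac
  split_ifs
  · refine (NS_geo_le hw (by omega) hr0 hr).trans ((one_div_one_sub_le ?_).trans ?_)
    · exact lt_of_le_of_lt hp hr
    · rw [Real.exp_le_exp]
      apply div_le_div_of_nonneg_left (pow_nonneg hr0 _) (by linarith) (by linarith)
  · rw [NS_one]
    exact Real.one_le_exp (div_nonneg (pow_nonneg hr0 _) (by linarith))

lemma Su_PP (hw : ‖w‖ ≤ 1) (M : ℕ) {r : ℝ} (hr0 : 0 ≤ r) (hr : r < 1) : Su r (PP A w M) := by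
  induction M with
  | zero => simpa [PP] using Su_one r
  | succ M ih =>
    rw [PP, Finset.prod_range_succ]
    exact Su_mul hr0 ih (Su_fac hw M hr0 hr)

lemma Ev_PP (hw : ‖w‖ ≤ 1) (M : ℕ) {x : ℂ} (hx : ‖x‖ < 1) :
    Ev x (PP A w M) = ∏ i ∈ range M, if A (i + 1) then (1 - w * x ^ (i + 1))⁻¹ else 1 := by
  induction M with
  | zero => simpa [PP] using Ev_one x
  | succ M ih =>
    rw [Finset.prod_range_succ, ← ih, ← Ev_fac hw M hx, PP, Finset.prod_range_succ]
    exact Ev_mul (Su_PP hw M (norm_nonneg _) hx) (Su_fac hw M (norm_nonneg _) hx)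

/-- the uniform bound -/
noncomputable def Bd (r : ℝ) : ℝ := Real.exp (r / (1 - r) ^ 2)

lemma NS_PP_le_aux (hw : ‖w‖ ≤ 1) (M : ℕ) {r : ℝ} (hr0 : 0 ≤ r) (hr : r < 1) :
    NS r (PP A w M) ≤ Real.exp (∑ i ∈ range M, r ^ (i + 1) / (1 - r)) := by
  induction M with
  | zero => simp [PP, NS_one]
  | succ M ih =>
    rw [PP, Finset.prod_range_succ, Finset.sum_range_succ, Real.exp_add]
    refine (NS_mul_le hr0 (Su_PP hw M hr0 hr) (Su_fac hw M hr0 hr)).trans ?_
    exact mul_le_mul ih (NS_fac_le hw M hr0 hr) (NS_nonneg hr0 _) (Real.exp_pos _).le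

lemma NS_PP_le (hw : ‖w‖ ≤ 1) (M : ℕ) {r : ℝ} (hr0 : 0 ≤ r) (hr : r < 1) :
    NS r (PP A w M) ≤ Bd r := by
  refine (NS_PP_le_aux hw M hr0 hr).trans ?_
  rw [Bd, Real.exp_le_exp]
  have hs : HasSum (fun i : ℕ => r ^ (i + 1) / (1 - r)) (r / (1 - r) ^ 2) := by
    have h := ((hasSum_geometric_of_lt_one hr0 hr).mul_left r).div_const (1 - r)
    have h0 : 1 - r ≠ 0 := by linarith
    have e1 : (fun i : ℕ => r ^ (i + 1) / (1 - r)) = fun i => r * r ^ i / (1 - r) := by
      funext i; rw [pow_succ]; ring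
    have e2 : r / (1 - r) ^ 2 = r * (1 - r)⁻¹ / (1 - r) := by field_simp
    rw [e1, e2]; exact h
  exact sum_le_hasSum _ (fun i _ => div_nonneg (pow_nonneg hr0 _) (by linarith)) hs

lemma norm_coeff_PP_le (hw : ‖w‖ ≤ 1) (M n : ℕ) {r : ℝ} (hr0 : 0 < r) (hr : r < 1) :
    ‖PowerSeries.coeff n (PP A w M)‖ * r ^ n ≤ Bd r :=
  ((Su_PP hw M hr0.le hr).le_tsum n (fun j _ => by positivity)).trans
    (NS_PP_le hw M hr0.le hr)

lemma norm_cw_le (hw : ‖w‖ ≤ 1) (n : ℕ) {r : ℝ} (hr0 : 0 < r) (hr : r < 1) :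
    ‖cw A w n‖ * r ^ n ≤ Bd r := by
  have h := ((tendsto_coeff_PP A w n).norm.mul_const (r ^ n))
  exact le_of_tendsto h (Eventually.of_forall fun M => norm_coeff_PP_le hw M n hr0 hr)

/-- bound used for dominated convergence -/
lemma term_bound {r ρ c : ℝ} (hr0 : 0 ≤ r) (hrρ : r < ρ) (n : ℕ) {B : ℝ}
    (h : c * ρ ^ n ≤ B) : c * r ^ n ≤ B * (r / ρ) ^ n := by
  have hρ : 0 < ρ := lt_of_le_of_lt hr0 hrρ
  calc c * r ^ n = (c * ρ ^ n) * (r / ρ) ^ n := by
        rw [mul_assoc, ← mul_pow, mul_div_cancel₀ _ hρ.ne']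
    _ ≤ B * (r / ρ) ^ n := mul_le_mul_of_nonneg_right h (pow_nonneg (div_nonneg hr0 hρ.le) _)

lemma summable_cw (hw : ‖w‖ ≤ 1) {r : ℝ} (hr0 : 0 ≤ r) (hr : r < 1) :
    Summable (fun n => ‖cw A w n‖ * r ^ n) := by
  set ρ := (1 + r) / 2 with hρ
  have h1 : r < ρ := by rw [hρ]; linarith
  have h2 : ρ < 1 := by rw [hρ]; linarith
  have h3 : 0 < ρ := lt_of_le_of_lt hr0 h1
  have hs : Summable (fun n : ℕ => Bd ρ * (r / ρ) ^ n) :=
    (summable_geometric_of_lt_one (div_nonneg hr0 h3.le) ((div_lt_one h3).2 h1)).mul_left _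
  exact hs.of_nonneg_of_le (fun n => by positivity) fun n =>
    term_bound hr0 h1 n (norm_cw_le hw n h3 h2)

lemma tendsto_Ev_PP (hw : ‖w‖ ≤ 1) {x : ℂ} (hx : ‖x‖ < 1) :
    Tendsto (fun M => Ev x (PP A w M)) atTop (𝓝 (∑' n, cw A w n * x ^ n)) := by
  set ρ := (1 + ‖x‖) / 2 with hρ
  have hr0 := norm_nonneg x
  have h1 : ‖x‖ < ρ := by rw [hρ]; linarith
  have h2 : ρ < 1 := by rw [hρ]; linarith
  have h3 : 0 < ρ := lt_of_le_of_lt hr0 h1
  have hs : Summable (fun n : ℕ => Bd ρ * (‖x‖ / ρ) ^ n) :=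
    (summable_geometric_of_lt_one (div_nonneg hr0 h3.le) ((div_lt_one h3).2 h1)).mul_left _
  unfold Ev
  refine tendsto_tsum_of_dominated_convergence hs
    (fun n => (tendsto_coeff_PP A w n).mul_const _) (Eventually.of_forall fun M n => ?_)
  rw [norm_mul, norm_pow]
  exact term_bound hr0 h1 n (norm_coeff_PP_le hw M n h3 h2)

end Pool.Agent.Q36.PartExp
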