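import Pool.Agent.Q36.PartExp.Conj

/-!
Numbers of restricted partitions by the residue class of the number of parts.
-/

open scoped Topology BigOperators Classical
open Filter Finset

namespace Pool.Agent.Q36.PartExp

/-- `p_S(a, m, n)`: the number of partitions of `n` with all parts in `S` whose number of
parts leaves the remainder `a` on division by `m`. -/
noncomputable def pS (S : Set ℕ) (a m n : ℕ) : ℕ :=
  (Finset.univ.filter (fun p : n.Partition =>
    (∀ i ∈ p.parts, i ∈ S) ∧ Multiset.card p.parts % m = a)).card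

/-- The list `u_n` of the indices `0, …, m - 1`, sorted by decreasing value of
`p_S(·, m, n)`, equal values being listed with the smaller index first (`List.mergeSort` is
a stable sort). -/
noncomputable def ordering (S : Set ℕ) (m n : ℕ) : List ℕ :=
  (List.range m).mergeSort (fun i j => decide (pS S j m n ≤ pS S i m n))

lemma ordering_pairwise (S : Set ℕ) (m n : ℕ) :
    (ordering S m n).Pairwise (fun i j => pS S j m n ≤ pS S i m n) := by
  have h := List.pairwise_mergeSort
    (le := fun i j => decide (pS S j m n ≤ pS S i m n))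
    (fun a b c h1 h2 => by
      simp only [decide_eq_true_eq] at *
      exact h2.trans h1)
    (fun a b => by
      rcases le_total (pS S b m n) (pS S a m n) with h | h <;> simp [h])
    (List.range m)
  refine h.imp ?_
  intro a b hab
  simpa using hab

lemma mem_ordering (S : Set ℕ) (m n i : ℕ) : i ∈ ordering S m n ↔ i < m := by
  rw [ordering, List.mem_mergeSort, List.mem_range]

lemma order_le {S : Set ℕ} {m n i j : ℕ} (hi : i < m) (hj : j < m)
    (h : (ordering S m n).idxOf i < (ordering S m n).idxOf j) :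
    pS S j m n ≤ pS S i m n := by
  have hp := List.pairwise_iff_getElem.1 (ordering_pairwise S m n)
  have h1 := List.idxOf_lt_length_of_mem ((mem_ordering S m n i).2 hi)
  have h2 := List.idxOf_lt_length_of_mem ((mem_ordering S m n j).2 hj)
  have h3 := hp _ _ h1 h2 h
  rwa [List.getElem_idxOf, List.getElem_idxOf] at h3

/-- the sign attached to the listing -/
noncomputable def eps (S : Set ℕ) (n : ℕ) : ℝ :=
  if (ordering S 3 n).idxOf 0 < (ordering S 3 n).idxOf 1 then 1 else -1

lemma eps_mul (S : Set ℕ) (n : ℕ) :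
    eps S n * ((pS S 0 3 n : ℝ) - pS S 1 3 n) = |(pS S 0 3 n : ℝ) - pS S 1 3 n| := by
  unfold eps
  split_ifs with h
  · have h1 : (pS S 1 3 n : ℝ) ≤ pS S 0 3 n := by
      exact_mod_cast order_le (by norm_num) (by norm_num) h
    rw [one_mul, abs_of_nonneg (by linarith)]
  · have h0 : (ordering S 3 n).idxOf 0 ≠ (ordering S 3 n).idxOf 1 := by
      intro he
      have h1 := List.idxOf_lt_length_of_mem ((mem_ordering S 3 n 0).2 (by norm_num))
      have h2 := List.idxOf_lt_length_of_mem ((mem_ordering S 3 n 1).2 (by norm_num))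
      have e1 : (ordering S 3 n)[(ordering S 3 n).idxOf 0] = 0 := List.getElem_idxOf h1
      have e2 : (ordering S 3 n)[(ordering S 3 n).idxOf 1] = 1 := List.getElem_idxOf h2
      simp only [he] at e1
      rw [e2] at e1
      exact one_ne_zero e1
    have h1 : (pS S 0 3 n : ℝ) ≤ pS S 1 3 n := by
      exact_mod_cast order_le (S := S) (m := 3) (n := n) (i := 1) (j := 0)
        (by norm_num) (by norm_num) (by omega)
    rw [abs_of_nonpos (by linarith)]; ring

lemma cw_eq (S : Set ℕ) {w : ℂ} (hw : w ^ 3 = 1) (n : ℕ) :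
    cw (· ∈ S) w n = pS S 0 3 n + w * pS S 1 3 n + w ^ 2 * pS S 2 3 n := by
  have h : ∀ a : ℕ, (pS S a 3 n : ℂ) =
      ∑ p : n.Partition with ∀ i ∈ p.parts, i ∈ S,
        if Multiset.card p.parts % 3 = a then (1 : ℂ) else 0 := by
    intro a
    rw [pS, Finset.sum_boole, Finset.filter_filter]
  rw [h 0, h 1, h 2, cw, Finset.mul_sum, Finset.mul_sum, ← Finset.sum_add_distrib,
    ← Finset.sum_add_distrib]
  refine Finset.sum_congr rfl fun p _ => ?_
  have h3 : w ^ (Multiset.card p.parts) = w ^ (Multiset.card p.parts % 3) := by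
    conv_lhs => rw [← Nat.div_add_mod (Multiset.card p.parts) 3, pow_add, pow_mul, hw, one_pow,
      one_mul]
  rw [h3]
  have h4 : Multiset.card p.parts % 3 < 3 := Nat.mod_lt _ (by norm_num)
  generalize Multiset.card p.parts % 3 = r at h4 ⊢
  interval_cases r <;> simp

lemma ee_cube : (ee (1 / 3)) ^ 3 = 1 := by
  rw [ee_pow]; norm_num; exact ee_one

lemma ee_cube' : (ee (2 / 3)) ^ 3 = 1 := by
  rw [ee_pow, show (((3 : ℕ) : ℝ) * (2 / 3)) = 1 + 1 by norm_num, ee_add, ee_one, one_mul]

lemma ee_mul_self : ee (1 / 3) * ee (1 / 3) = ee (2 / 3) := by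
  rw [← ee_add]; norm_num

lemma sum_ee : 1 + ee (1 / 3) + ee (2 / 3) = 0 := by
  have h1 : ee (1 / 3) ≠ 1 := by
    intro h
    have h2 := congrArg Complex.re h
    rw [re_ee, show 2 * Real.pi * (1 / 3) = Real.pi - Real.pi / 3 by ring, Real.cos_pi_sub,
      Real.cos_pi_div_three] at h2
    norm_num at h2
  have h2 : (ee (1 / 3) - 1) * (1 + ee (1 / 3) + ee (2 / 3)) = 0 := by
    rw [← ee_mul_self]
    have := ee_cube
    linear_combination this
  rcases mul_eq_zero.1 h2 with h | h
  · exact absurd (sub_eq_zero.1 h) h1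
  · exact h

/-- the difference of the counts for the classes `0` and `1` -/
lemma diff_eq (S : Set ℕ) (n : ℕ) :
    (((pS S 0 3 n : ℝ) - pS S 1 3 n : ℝ) : ℂ) =
      ((1 - ee (2 / 3)) * cw (· ∈ S) (ee (1 / 3)) n +
        (1 - ee (1 / 3)) * cw (· ∈ S) (ee (2 / 3)) n) / 3 := by
  rw [cw_eq S ee_cube, cw_eq S ee_cube']
  push_cast
  have h1 := sum_ee
  have h2 := ee_mul_self
  have h3 := ee_cube
  set z := ee (1 / 3) with hz
  rw [← h2]
  rw [← h2] at h1
  linear_combination ((pS S 0 3 n : ℂ) / 3 - (pS S 1 3 n : ℂ) / 3) * h1 +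
    (2 / 3 * (pS S 1 3 n : ℂ) + (pS S 2 3 n : ℂ) * z ^ 2 / 3) * h3

end Pool.Agent.Q36.PartExp
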